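import Mathlib
import Pool.Agent.Work.MP_f1a024_nt.HD.D

set_option autoImplicit false

/-!
Hurwitz analogues of the numbers `t(n) = ζ(2n)/ζ(n)²`: `T n x = ζ(2n)/ζ(n, x)²`. For every `n ≥ 2`
(in particular for every odd `n ≥ 3`) and every rational `x` in `(0, 1)` whose denominator is not
`2, 3, 4, 6`, one of the two numbers `T n x`, `T n (1 - x)` is irrational, and so are all its powers.
-/

namespace Pool.Agent.Work.MP_f1a024_nt.HD.Held

/-- `hz n x` is the Hurwitz zeta value `ζ(n, x) = ∑_{m ≥ 0} (m + x)^(-n)`; `hz n 1 = ζ(n)` -/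
noncomputable def hz (n : ℕ) (x : ℝ) : ℝ := ∑' m : ℕ, 1 / ((m : ℝ) + x) ^ n

/-- `T n x = ζ(2n)/ζ(n, x)²`; `T n 1` is the number `t(n)` of the problem -/
noncomputable def T (n : ℕ) (x : ℝ) : ℝ := hz (2 * n) 1 / hz n x ^ 2

theorem zeta_rat {n : ℕ} (hn : n ≠ 0) : ∃ e : ℚ, hz (2 * n) 1 = e * Real.pi ^ (2 * n) := by
  have h := hasSum_zeta_nat hn
  refine ⟨(-1) ^ (n + 1) * 2 ^ (2 * n - 1) * bernoulli (2 * n) / (2 * n).factorial, ?_⟩
  have h1 : hz (2 * n) 1 = ∑' m : ℕ, 1 / (m : ℝ) ^ (2 * n) := by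
    rw [h.summable.tsum_eq_zero_add]
    unfold hz
    have h2 : (1 : ℝ) / ((0 : ℕ) : ℝ) ^ (2 * n) = 0 := by
      rw [Nat.cast_zero, zero_pow (by omega), div_zero]
    rw [h2, zero_add]
    refine tsum_congr fun m => ?_
    push_cast
    rfl
  rw [h1, h.tsum_eq]
  push_cast
  ring

theorem pow_rat {n : ℕ} (hn : 2 ≤ n) {x : ℝ} (hx : 0 < x) {k : ℕ}
    (h : ¬ Irrational (T n x ^ k)) : ∃ r : ℚ, (hz n x / Real.pi ^ n) ^ (2 * k) = r := by
  obtain ⟨t, ht⟩ : ∃ t : ℚ, (t : ℝ) = T n x ^ k := by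
    by_contra hne
    exact h fun ⟨t, ht⟩ => hne ⟨t, ht⟩
  obtain ⟨e, he⟩ := zeta_rat (n := n) (by omega)
  have hpi : Real.pi ≠ 0 := Real.pi_ne_zero
  have h0 : hz n x ≠ 0 := (Work.MP_f1a024_nt.HD.hz_pos hn hx).ne'
  have h1 : hz (2 * n) 1 ≠ 0 := (Work.MP_f1a024_nt.HD.hz_pos (by omega) one_pos).ne'
  have he0 : (e : ℝ) ≠ 0 := by
    intro h2
    rw [h2, zero_mul] at he
    exact h1 he
  have ht2 : (t : ℝ) = (e : ℝ) ^ k / (hz n x / Real.pi ^ n) ^ (2 * k) := by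
    rw [ht, T, he, div_pow, mul_pow, div_pow, ← pow_mul, ← pow_mul, ← pow_mul]
    have e1 : 2 * n * k = n * (2 * k) := by ring
    rw [e1]
    field_simp
  have ht0 : (t : ℝ) ≠ 0 := by
    rw [ht2]
    exact div_ne_zero (pow_ne_zero _ he0) (pow_ne_zero _ (div_ne_zero h0 (pow_ne_zero _ hpi)))
  refine ⟨e ^ k / t, ?_⟩
  push_cast
  rw [eq_div_iff ht0, ht2, mul_div_cancel₀]
  exact pow_ne_zero _ (div_ne_zero h0 (pow_ne_zero _ hpi))

/-- Let `n ≥ 2` be an integer and `x` a rational number, `0 < x < 1`, whose denominator is not one of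
`2, 3, 4, 6`. Then all powers `T(n, x)^k`, `k ≥ 1`, are irrational, or all powers `T(n, 1 - x)^k`,
`k ≥ 1`, are irrational. -/
theorem result (n : ℕ) (hn : 2 ≤ n) (x : ℚ) (h0 : 0 < x) (h1 : x < 1)
    (hx : x.den ∉ ({2, 3, 4, 6} : Set ℕ)) :
    (∀ k : ℕ, 0 < k → Irrational (T n x ^ k)) ∨ (∀ k : ℕ, 0 < k → Irrational (T n (1 - x) ^ k)) := by
  by_contra hcon
  rw [not_or] at hcon
  obtain ⟨hA, hB⟩ := hcon
  rw [not_forall] at hA hB
  obtain ⟨j, hj⟩ := hA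
  obtain ⟨k, hk⟩ := hB
  rw [Classical.not_imp] at hj hk
  obtain ⟨a, ha⟩ := Int.eq_ofNat_of_zero_le (Rat.num_nonneg.2 h0.le)
  have hq0 : (0 : ℝ) < (x.den : ℝ) := by exact_mod_cast x.den_pos
  have hxa : (x : ℝ) = (a : ℝ) / (x.den : ℝ) := by
    have h2 : (x : ℝ) = (x.num : ℝ) / (x.den : ℝ) := Rat.cast_def x
    rw [h2, ha]
    rfl
  have ha0 : 0 < a := by
    have h2 : 0 < x.num := Rat.num_pos.2 h0
    omega
  have haq : a < x.den := by
    have h2 : (x : ℝ) < 1 := by exact_mod_cast h1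
    rw [hxa, div_lt_one hq0] at h2
    exact_mod_cast h2
  have hcop : a.Coprime x.den := by
    have h2 := x.reduced
    rw [ha] at h2
    exact h2
  have hxr : (0 : ℝ) < (x : ℝ) := by exact_mod_cast h0
  have hxr1 : (0 : ℝ) < 1 - (x : ℝ) := by
    have : (x : ℝ) < 1 := by exact_mod_cast h1
    linarith
  obtain ⟨r, hr⟩ := pow_rat hn hxr hj.2
  obtain ⟨s, hs⟩ := pow_rat hn hxr1 hk.2
  have hm : (1 - (x : ℝ)) = ((x.den - a : ℕ) : ℝ) / (x.den : ℝ) := by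
    rw [hxa, Nat.cast_sub haq.le]
    field_simp
  rw [hxa] at hr
  rw [hm] at hs
  refine Work.MP_f1a024_nt.HD.dich hn ha0 haq hcop ?_ ?_ ?_ ?_ (Nat.mul_pos two_pos hj.1)
    (Nat.mul_pos two_pos hk.1) hr hs
  · intro h
    exact hx (by rw [h]; exact Or.inl rfl)
  · intro h
    exact hx (by rw [h]; exact Or.inr (Or.inl rfl))
  · intro h
    exact hx (by rw [h]; exact Or.inr (Or.inr (Or.inl rfl)))
  · intro h
    exact hx (by rw [h]; exact Or.inr (Or.inr (Or.inr rfl)))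

end Pool.Agent.Work.MP_f1a024_nt.HD.Held
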